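import Pool.Agent.helper92.ISO.SpecC

/-! Row iso:FIN -/

set_option autoImplicit false

open Filter Topology

namespace Pool.Agent.ISO

open Pool.Agent.PB

theorem FIN_sub (A : Lang) (h : InPPoly A) : InNPPoly A := by
  obtain ⟨c, hc⟩ := h
  refine ⟨c, fun n => ⟨0, Nat.zero_le _, ?_⟩⟩
  refine ⟨(A n : BF (n + 0)), hc n, fun x => ?_⟩
  have key : ∀ y : Fin 0 → Bool, (Fin.append x y : Fin (n + 0) → Bool) = x := by
    intro y
    rw [Fin.append_right_nil x y rfl]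
    funext i
    rfl
  constructor
  · intro hx
    refine ⟨fun i => Fin.elim0 i, ?_⟩
    rw [key]; exact hx
  · rintro ⟨y, hy⟩
    rw [key] at hy; exact hy

theorem FIN_proof (hDSP : DSP_stmt) (hPUB : PUB_stmt) (hVVA : VVA_stmt) (hLEX : LEX_stmt) (hPB2 : PB2_stmt)
    (hTWO : TWO_stmt) (hLIM : LIM_stmt) : FIN_stmt := by
  refine ⟨?_, hPB2, hTWO, hLIM.1, hLIM.2⟩
  intro ε m κ p hε hε2 hm hκ hp hA
  constructor
  · intro hall A
    exact ⟨FIN_sub A, hVVA (hPUB (ε / 2) m κ p (by linarith) hall (hDSP ε m κ p hε hε2 hm hκ hA)) A⟩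
  · intro h
    exact hLEX (fun A hA => (h A).2 hA) m κ p hκ hp

end Pool.Agent.ISO
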