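import Pool.Agent.helper92.ISO.SpecC

/-! Row iso:IPS -/

set_option autoImplicit false

namespace Pool.Agent.ISO

open Pool.Agent.PB

theorem IPS_ip (hCIR : CIR_stmt) (hCNT : CNT_stmt) (n w : ℕ) (a : Fin w → Bool) :
    Size std (fun z : Fin (n + w) → Bool => ip a fun j => z (Fin.natAdd n j)) (20 * (w + 1) ^ 2) := by
  obtain ⟨c1, c2, c3, -, -, -, -⟩ := hCIR
  have hg : ∀ j : Fin w, Size std (fun z : Fin (n + w) → Bool => a j && z (Fin.natAdd n j)) 1 := by
    intro j
    cases hj : a j
    · have e : (fun z : Fin (n + w) → Bool => false && z (Fin.natAdd n j)) = fun _ => false := by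
        funext z; simp
      rw [e]; exact c2 _ _
    · have e : (fun z : Fin (n + w) → Bool => true && z (Fin.natAdd n j)) = fun z => z (Fin.natAdd n j) := by
        funext z; simp
      rw [e]; exact c3 _ _ _ _ (c1 _ _) (Nat.zero_le _)
  have h := hCNT (Fin w) (n + w) 1 (fun j z => a j && z (Fin.natAdd n j))
    (fun z : Fin (n + w) → Bool => ip a fun j => z (Fin.natAdd n j)) (fun k => Odd k) hg (by
      intro x
      unfold ip
      simp only [decide_eq_true_eq, Bool.and_eq_true])
  refine c3 _ _ _ _ h ?_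
  rw [Fintype.card_fin]
  nlinarith

theorem IPS_proof (hCIR : CIR_stmt) (hCNT : CNT_stmt) : IPS_stmt := by
  refine ⟨IPS_ip hCIR hCNT, ?_⟩
  intro n w s f F h hf hF
  have hip := IPS_ip hCIR hCNT n w
  obtain ⟨c1, c2, c3, c4, c5, c6, c7⟩ := hCIR
  let g : Fin (w + 2) → BF (n + w) := fun i z =>
    if (i : ℕ) < (h.1 : ℕ) then (if (h.2 i).2 = true then ip (h.2 i).1 fun j => z (Fin.natAdd n j)
      else !(ip (h.2 i).1 fun j => z (Fin.natAdd n j))) else true
  have hg : ∀ i, Size std (g i) (20 * (w + 1) ^ 2 + 1) := by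
    intro i
    by_cases h1 : (i : ℕ) < (h.1 : ℕ)
    · by_cases h2 : (h.2 i).2 = true
      · have e : g i = fun z => ip (h.2 i).1 fun j => z (Fin.natAdd n j) := by
          funext z; simp only [g]; rw [if_pos h1, if_pos h2]
        rw [e]; exact c3 _ _ _ _ (hip _) (Nat.le_succ _)
      · have e : g i = fun z => !(ip (h.2 i).1 fun j => z (Fin.natAdd n j)) := by
          funext z; simp only [g]; rw [if_pos h1, if_neg h2]
        rw [e]; exact c4 _ _ _ (hip _)
    · have e : g i = fun _ => true := by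
        funext z; simp only [g]; rw [if_neg h1]
      rw [e]; exact c3 _ _ _ _ (c2 _ _) (by nlinarith)
  have hgs : ∀ z : Fin (n + w) → Bool, (∀ i, g i z = true) ↔ hsat h (fun j => z (Fin.natAdd n j)) := by
    intro z
    unfold hsat
    refine forall_congr' fun i => ?_
    simp only [g]
    by_cases h1 : (i : ℕ) < (h.1 : ℕ)
    · rw [if_pos h1]
      by_cases h2 : (h.2 i).2 = true
      · rw [if_pos h2, h2]; simp [h1]
      · rw [if_neg h2]
        have h3 : (h.2 i).2 = false := by simpa using h2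
        rw [h3]; simp [h1]
    · rw [if_neg h1]; simp [h1]
  classical
  let G : BF (n + w) := fun z => decide (∀ i, g i z = true)
  have hG : Size std G (Fintype.card (Fin (w + 2)) * (20 * (w + 1) ^ 2 + 1 + 1) + 1) :=
    c6 (Fin (w + 2)) (n + w) (20 * (w + 1) ^ 2 + 1) g G hg (by intro x; simp only [G, decide_eq_true_eq])
  have hand := (c5 _ _ _ f G hf hG).1
  have e : (fun x => f x && G x) = F := by
    funext z
    have hz : z = Fin.append (fun i => z (Fin.castAdd w i)) (fun j => z (Fin.natAdd n j)) :=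
      (Fin.append_castAdd_natAdd).symm
    have h1 := hF (fun i => z (Fin.castAdd w i)) (fun j => z (Fin.natAdd n j))
    rw [← hz, ← hgs z] at h1
    rw [Bool.eq_iff_iff, h1, Bool.and_eq_true]
    simp only [G, decide_eq_true_eq]
  rw [e] at hand
  refine c3 _ _ _ _ hand ?_
  rw [Fintype.card_fin]
  have e2 : (w + 2) * (20 * (w + 1) ^ 2 + 1 + 1) + 1 + 1 ≤ 100 * (w + 3) ^ 3 := by
    have e3 : (w + 2) * (20 * (w + 1) ^ 2 + 1 + 1) + 1 + 1 = 20 * w ^ 3 + 80 * w ^ 2 + 102 * w + 46 := by ring
    have e4 : 100 * (w + 3) ^ 3 = 100 * w ^ 3 + 900 * w ^ 2 + 2700 * w + 2700 := by ring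
    rw [e3, e4]
    omega
  omega

end Pool.Agent.ISO
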