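import Pool.Agent.helper92.ISO.SpecC
import Pool.Agent.helper64.PB.Asm

/-! Row iso:SEL -/

set_option autoImplicit false

namespace Pool.Agent.ISO

open Pool.Agent.PB

theorem SEL_const (n : ℕ) (b : Bool) : Size std (fun _ : Fin n → Bool => b) 1 := by
  have hmem : gConst b ∈ std := by
    cases b
    · exact Or.inl rfl
    · exact Or.inr (Or.inl rfl)
  exact ⟨_, Prog.step [] (gConst b) (fun i => Fin.elim0 i) Prog.nil hmem (fun i => Fin.elim0 i),
    le_rfl, Or.inl (List.mem_singleton.2 rfl)⟩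

theorem SEL_proof : SEL_stmt := by
  intro n N s F φ hF h
  have hφ : ∀ i, Size std (φ i) 1 := by
    intro i
    rcases h i with ⟨b, hb⟩ | ⟨j, hj⟩
    · rw [hb]; exact SEL_const n b
    · exact ⟨[], Prog.nil, Nat.zero_le _, Or.inr ⟨j, hj⟩⟩
  have h1 := pCMP std N n F φ s (fun _ => 1) hF hφ
  have e : s + ∑ _i : Fin N, 1 = s + N := by simp
  rw [e] at h1
  exact h1

end Pool.Agent.ISO
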